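import Pool.Agent.W787.PS.StmC

/-!
# Project PS (helper787), part H1C: Frechet derivative of the functional
-/

set_option autoImplicit false
set_option linter.all false

open MeasureTheory Set Filter Topology

noncomputable section

namespace Pool.Agent.W174.PSH

open Pool.Agent.W787.PS

theorem exp_rem (w : ℝ) : |Real.exp w - 1 - w| ≤ w ^ 2 * Real.exp |w| := by
  have h1 : 0 ≤ Real.exp w - 1 - w := by linarith [Real.add_one_le_exp w]
  rw [abs_of_nonneg h1]
  have h2 : Real.exp w - 1 ≤ w * Real.exp w := by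
    have h3 : -w + 1 ≤ Real.exp (-w) := Real.add_one_le_exp (-w)
    have h4 : Real.exp (-w) * Real.exp w = 1 := by rw [← Real.exp_add]; simp
    have h5 := mul_le_mul_of_nonneg_right h3 (Real.exp_pos w).le
    rw [h4] at h5
    linarith
  rcases le_or_gt 0 w with hw | hw
  · rw [abs_of_nonneg hw]
    have h6 : w * (Real.exp w - 1) ≤ w * (w * Real.exp w) := mul_le_mul_of_nonneg_left h2 hw
    nlinarith
  · have h7 : 1 - Real.exp w ≤ -w := by linarith [Real.add_one_le_exp w]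
    have h8 : (-w) * (1 - Real.exp w) ≤ (-w) * (-w) :=
      mul_le_mul_of_nonneg_left h7 (by linarith)
    have h9 : 1 ≤ Real.exp |w| := Real.one_le_exp (abs_nonneg w)
    have h10 : w ^ 2 * 1 ≤ w ^ 2 * Real.exp |w| := mul_le_mul_of_nonneg_left h9 (sq_nonneg w)
    nlinarith

theorem pt_bound (a w s b c : ℝ) (hs : 0 < s) (hb : 0 ≤ c) (hcb : c ≤ b) :
    |c * Real.exp a * (Real.exp w - 1 - w)| ≤
      b * ((1 / 2) * (w ^ 4 / s + s * ((1 / 2) * (Real.exp (4 * |a|) + Real.exp (4 * |w|))))) := by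
  have h1 := exp_rem w
  rw [abs_mul, abs_mul, abs_of_nonneg hb, abs_of_pos (Real.exp_pos a)]
  have h2 : Real.exp a ≤ Real.exp |a| := Real.exp_le_exp.2 (le_abs_self a)
  obtain ⟨A, hA⟩ : ∃ A, A = Real.exp |a| := ⟨_, rfl⟩
  obtain ⟨B, hB⟩ : ∃ B, B = Real.exp |w| := ⟨_, rfl⟩
  have hA4 : Real.exp (4 * |a|) = A ^ 4 := by
    rw [hA, ← Real.exp_nat_mul]; norm_num
  have hB4 : Real.exp (4 * |w|) = B ^ 4 := by
    rw [hB, ← Real.exp_nat_mul]; norm_num
  have hA0 : 0 < A := by rw [hA]; exact Real.exp_pos _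
  have hB0 : 0 < B := by rw [hB]; exact Real.exp_pos _
  rw [hA4, hB4]
  rw [← hB] at h1
  rw [← hA] at h2
  have h3 : c * Real.exp a * |Real.exp w - 1 - w| ≤ b * (A * (w ^ 2 * B)) := by
    rw [mul_assoc]
    apply mul_le_mul hcb _ (by positivity) (by linarith)
    apply mul_le_mul h2 h1 (abs_nonneg _) hA0.le
  refine h3.trans ?_
  apply mul_le_mul_of_nonneg_left _ (by linarith : 0 ≤ b)
  have h4 : (A * B) ^ 2 ≤ (1 / 2) * (A ^ 4 + B ^ 4) := by nlinarith [sq_nonneg (A ^ 2 - B ^ 2)]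
  have h5 : w ^ 2 * (A * B) ≤ (1 / 2) * (w ^ 4 / s + s * (A * B) ^ 2) := by
    obtain ⟨t, ht⟩ : ∃ t, t = w ^ 2 / s := ⟨_, rfl⟩
    have ht' : w ^ 2 = t * s := by rw [ht]; field_simp
    have ht4 : w ^ 4 / s = t ^ 2 * s := by
      have : w ^ 4 = (w ^ 2) ^ 2 := by ring
      rw [this, ht']; field_simp
    rw [ht4, ht']
    nlinarith [mul_nonneg hs.le (sq_nonneg (t - A * B))]
  have h6 : s * (A * B) ^ 2 ≤ s * ((1 / 2) * (A ^ 4 + B ^ 4)) := mul_le_mul_of_nonneg_left h4 hs.le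
  calc A * (w ^ 2 * B) = w ^ 2 * (A * B) := by ring
    _ ≤ _ := h5
    _ ≤ _ := by linarith

section

variable {M : Type} [TopologicalSpace M] [CompactSpace M] [MeasurableSpace M] [BorelSpace M]
  (G : Geo M) (h : M → ℝ)

theorem exists_b (hc : Continuous h) : ∃ b : ℝ, 0 ≤ b ∧ ∀ x, h x ≤ b := by
  obtain ⟨C, hC⟩ := isCompact_univ.exists_bound_of_continuousOn hc.continuousOn
  refine ⟨|C|, abs_nonneg _, fun x => ?_⟩
  have := hC x (mem_univ x)
  exact ((le_abs_self _).trans this).trans (le_abs_self C)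

variable {G h}

theorem meas_exp (hc : Continuous h) (f : Lp ℝ 2 G.vol) :
    AEStronglyMeasurable (fun x => h x * Real.exp (f x)) G.vol :=
  hc.aestronglyMeasurable.mul
    (Real.continuous_exp.comp_aestronglyMeasurable (Lp.aestronglyMeasurable f))

theorem int_E (hE : EXA G) (hc : Continuous h) (hp : ∀ x, 0 < h x) (U : G.H1) :
    Integrable (fun x => h x * Real.exp (G.toL2 U x)) G.vol := by
  obtain ⟨b, hb0, hb⟩ := exists_b h hc
  have h1 := (hE.2.2 U 1).const_mul b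
  refine h1.mono' (meas_exp hc _) (Eventually.of_forall fun x => ?_)
  rw [Real.norm_eq_abs, abs_mul, abs_of_pos (hp x), abs_of_pos (Real.exp_pos _)]
  apply mul_le_mul (hb x) _ (Real.exp_pos _).le hb0
  rw [one_mul]
  exact Real.exp_le_exp.2 (le_abs_self _)

theorem memLp_E (hE : EXA G) (hc : Continuous h) (hp : ∀ x, 0 < h x) (U : G.H1) :
    MemLp (fun x => h x * Real.exp (G.toL2 U x)) 2 G.vol := by
  obtain ⟨b, hb0, hb⟩ := exists_b h hc
  rw [memLp_two_iff_integrable_sq (meas_exp hc _)]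
  have h1 := (hE.2.2 U 2).const_mul (b ^ 2)
  refine h1.mono' ((meas_exp hc _).pow 2) (Eventually.of_forall fun x => ?_)
  rw [Real.norm_eq_abs, abs_of_nonneg (sq_nonneg _), mul_pow]
  have h3 : Real.exp (G.toL2 U x) ^ 2 ≤ Real.exp (2 * |G.toL2 U x|) := by
    rw [← Real.exp_nat_mul]
    apply Real.exp_le_exp.2
    push_cast
    linarith [le_abs_self (G.toL2 U x)]
  exact mul_le_mul (pow_le_pow_left₀ (hp x).le (hb x) 2) h3 (by positivity) (by positivity)

theorem E_pos (hE : EXA G) (hc : Continuous h) (hp : ∀ x, 0 < h x) (U : G.H1) :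
    0 < ∫ x, h x * Real.exp (G.toL2 U x) ∂G.vol := by
  rw [integral_pos_iff_support_of_nonneg (fun x => (mul_pos (hp x) (Real.exp_pos _)).le)
    (int_E hE hc hp U)]
  have : Function.support (fun x => h x * Real.exp (G.toL2 U x)) = univ := by
    ext x
    simp only [Function.mem_support, mem_univ, iff_true]
    exact (mul_pos (hp x) (Real.exp_pos _)).ne'
  rw [this, G.vol_univ]
  exact one_pos

/-- the derivative of the exponential integral -/
def DE (hE : EXA G) (hc : Continuous h) (hp : ∀ x, 0 < h x) (U : G.H1) : G.H1 →L[ℝ] ℝ :=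
  (innerSL ℝ ((memLp_E hE hc hp U).toLp _)).comp G.toL2

theorem DE_apply (hE : EXA G) (hc : Continuous h) (hp : ∀ x, 0 < h x) (U φ : G.H1) :
    DE hE hc hp U φ = ∫ x, h x * Real.exp (G.toL2 U x) * G.toL2 φ x ∂G.vol := by
  unfold DE
  rw [ContinuousLinearMap.comp_apply, innerSL_apply_apply, L2.inner_def]
  refine integral_congr_ae ?_
  filter_upwards [(memLp_E hE hc hp U).coeFn_toLp] with x hx
  rw [hx]
  simp [mul_comm]

theorem int_D (hE : EXA G) (hc : Continuous h) (hp : ∀ x, 0 < h x) (U φ : G.H1) :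
    Integrable (fun x => h x * Real.exp (G.toL2 U x) * G.toL2 φ x) G.vol :=
  (memLp_E hE hc hp U).integrable_mul (Lp.memLp (G.toL2 φ))

theorem rem_bound (hE : EXA G) (hc : Continuous h) (hp : ∀ x, 0 < h x) (U : G.H1) :
    ∃ ε K : ℝ, 0 < ε ∧ ∀ φ : G.H1, ‖φ‖ ≤ ε →
      ‖(∫ x, h x * Real.exp (G.toL2 (U + φ) x) ∂G.vol)
        - (∫ x, h x * Real.exp (G.toL2 U x) ∂G.vol) - DE hE hc hp U φ‖ ≤ K * ‖φ‖ ^ 2 := by
  obtain ⟨b, hb0, hb⟩ := exists_b h hc
  obtain ⟨ε, C4, hε, hC4, h4⟩ := hE.1 4 (by norm_num)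
  obtain ⟨C, hC0, hC⟩ := hE.2.1
  obtain ⟨A, hA⟩ : ∃ A, A = ∫ x, Real.exp (4 * |G.toL2 U x|) ∂G.vol := ⟨_, rfl⟩
  refine ⟨ε, b * ((1 / 2) * (C + (1 / 2) * (A + C4))), hε, ?_⟩
  intro φ hφ
  rcases eq_or_ne φ 0 with h0 | h0
  · subst h0
    simp
  · have hs : 0 < ‖φ‖ ^ 2 := by
      have : 0 < ‖φ‖ := norm_pos_iff.2 h0
      positivity
    have e1 : (∫ x, h x * Real.exp (G.toL2 (U + φ) x) ∂G.vol)
        - (∫ x, h x * Real.exp (G.toL2 U x) ∂G.vol) - DE hE hc hp U φ =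
        ∫ x, (h x * Real.exp (G.toL2 (U + φ) x) - h x * Real.exp (G.toL2 U x)
          - h x * Real.exp (G.toL2 U x) * G.toL2 φ x) ∂G.vol := by
      rw [DE_apply, ← integral_sub (int_E hE hc hp _) (int_E hE hc hp _), ← integral_sub]
      · exact (int_E hE hc hp _).sub (int_E hE hc hp _)
      · exact int_D hE hc hp _ _
    rw [e1]
    have i1 : Integrable (fun x => G.toL2 φ x ^ 4 / ‖φ‖ ^ 2) G.vol := (hC φ).1.div_const _
    have i2 : Integrable (fun x => Real.exp (4 * |G.toL2 U x|)) G.vol := hE.2.2 U 4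
    have i3 : Integrable (fun x => Real.exp (4 * |G.toL2 φ x|)) G.vol := hE.2.2 φ 4
    have i4 : Integrable (fun x => ‖φ‖ ^ 2 * ((1 / 2) * (Real.exp (4 * |G.toL2 U x|) +
        Real.exp (4 * |G.toL2 φ x|)))) G.vol := ((i2.add i3).const_mul (1 / 2)).const_mul _
    have hg : Integrable (fun x => b * ((1 / 2) * (G.toL2 φ x ^ 4 / ‖φ‖ ^ 2 +
        ‖φ‖ ^ 2 * ((1 / 2) * (Real.exp (4 * |G.toL2 U x|) +
          Real.exp (4 * |G.toL2 φ x|)))))) G.vol := ((i1.add i4).const_mul (1 / 2)).const_mul b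
    have key := norm_integral_le_of_norm_le hg (f := fun x => h x * Real.exp (G.toL2 (U + φ) x)
      - h x * Real.exp (G.toL2 U x) - h x * Real.exp (G.toL2 U x) * G.toL2 φ x) (by
      have e2 : G.toL2 (U + φ) = G.toL2 U + G.toL2 φ := map_add _ _ _
      filter_upwards [Lp.coeFn_add (G.toL2 U) (G.toL2 φ)] with x hx
      rw [e2, hx, Pi.add_apply, Real.exp_add, Real.norm_eq_abs]
      have e3 : h x * (Real.exp (G.toL2 U x) * Real.exp (G.toL2 φ x)) -
          h x * Real.exp (G.toL2 U x) - h x * Real.exp (G.toL2 U x) * G.toL2 φ x =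
          h x * Real.exp (G.toL2 U x) * (Real.exp (G.toL2 φ x) - 1 - G.toL2 φ x) := by ring
      rw [e3]
      exact pt_bound _ _ _ _ _ hs (hp x).le (hb x))
    refine key.trans ?_
    rw [integral_const_mul, integral_const_mul, integral_add i1 i4, integral_div,
      integral_const_mul, integral_const_mul, integral_add i2 i3, ← hA]
    have k1 : (∫ x, G.toL2 φ x ^ 4 ∂G.vol) / ‖φ‖ ^ 2 ≤ C * ‖φ‖ ^ 2 := by
      rw [div_le_iff₀ hs]
      calc _ ≤ C * ‖φ‖ ^ 4 := (hC φ).2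
        _ = _ := by ring
    have k2 : (∫ x, Real.exp (4 * |G.toL2 φ x|) ∂G.vol) ≤ C4 := (h4 φ hφ).2
    have k3 : ‖φ‖ ^ 2 * ((1 / 2) * (A + ∫ x, Real.exp (4 * |G.toL2 φ x|) ∂G.vol)) ≤
        ‖φ‖ ^ 2 * ((1 / 2) * (A + C4)) := by
      apply mul_le_mul_of_nonneg_left _ hs.le
      linarith
    calc b * (1 / 2 * ((∫ x, G.toL2 φ x ^ 4 ∂G.vol) / ‖φ‖ ^ 2 +
          ‖φ‖ ^ 2 * (1 / 2 * (A + ∫ x, Real.exp (4 * |G.toL2 φ x|) ∂G.vol))))
        ≤ b * (1 / 2 * (C * ‖φ‖ ^ 2 + ‖φ‖ ^ 2 * (1 / 2 * (A + C4)))) := by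
          apply mul_le_mul_of_nonneg_left _ hb0
          linarith
      _ = _ := by ring

theorem E_der (hE : EXA G) (hc : Continuous h) (hp : ∀ x, 0 < h x) (U : G.H1) :
    HasFDerivAt (fun u : G.H1 => ∫ x, h x * Real.exp (G.toL2 u x) ∂G.vol)
      (DE hE hc hp U) U := by
  obtain ⟨ε, K, hε, hK⟩ := rem_bound hE hc hp U
  rw [hasFDerivAt_iff_isLittleO_nhds_zero]
  have h1 : (fun φ : G.H1 => (∫ x, h x * Real.exp (G.toL2 (U + φ) x) ∂G.vol)
        - (∫ x, h x * Real.exp (G.toL2 U x) ∂G.vol) - DE hE hc hp U φ) =O[𝓝 0]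
      (fun φ : G.H1 => ‖φ‖ ^ 2) := by
    apply Asymptotics.IsBigO.of_bound K
    have : ∀ᶠ φ : G.H1 in 𝓝 0, ‖φ‖ < ε := by
      have := (continuous_norm (E := G.H1)).tendsto 0
      rw [norm_zero] at this
      exact this.eventually (gt_mem_nhds hε)
    filter_upwards [this] with φ hφ
    refine (hK φ hφ.le).trans (le_of_eq ?_)
    rw [Real.norm_eq_abs, abs_of_nonneg (by positivity)]
  exact h1.trans_isLittleO (Asymptotics.isLittleO_norm_pow_id one_lt_two)

/-- integration as a continuous linear functional on `L²` -/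
def intL (G : Geo M) : Lp ℝ 2 G.vol →L[ℝ] ℝ :=
  innerSL ℝ (indicatorConstLp 2 MeasurableSet.univ (measure_ne_top G.vol univ) (1 : ℝ))

theorem intL_apply (f : Lp ℝ 2 G.vol) : intL G f = ∫ x, f x ∂G.vol := by
  unfold intL
  rw [innerSL_apply_apply, L2.inner_indicatorConstLp_one, setIntegral_univ]

end

theorem h1c (h0 : S_H1Z) : S_H1C := by
  intro M _ _ _ _ G h lam hE hc hp U
  have d1 : HasFDerivAt (fun u : G.H1 => ‖u‖ ^ 2) (2 • innerSL ℝ U) U :=
    (hasStrictFDerivAt_norm_sq U).hasFDerivAt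
  have d2 : HasFDerivAt (fun u : G.H1 => ‖G.toL2 u‖ ^ 2)
      ((2 • innerSL ℝ (G.toL2 U)).comp G.toL2) U :=
    ((hasStrictFDerivAt_norm_sq (G.toL2 U)).hasFDerivAt).comp U G.toL2.hasFDerivAt
  have d3 : HasFDerivAt (fun u : G.H1 => ∫ x, G.toL2 u x ∂G.vol) ((intL G).comp G.toL2) U := by
    have : (fun u : G.H1 => ∫ x, G.toL2 u x ∂G.vol) = fun u => ((intL G).comp G.toL2) u := by
      funext u
      rw [ContinuousLinearMap.comp_apply, intL_apply]
    rw [this]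
    exact ((intL G).comp G.toL2).hasFDerivAt
  have d4 := (E_der hE hc hp U).log (E_pos hE hc hp U).ne'
  refine ⟨_, (((d1.sub d2).const_mul (1 / 2)).add (d3.const_mul lam)).sub (d4.const_mul lam), ?_⟩
  intro φ
  have e0 := (h0 M G).1 φ
  have e1 : (G.toL2 (φ : G.H1) : M → ℝ) =ᵐ[G.vol] Geo.fn φ := by
    rw [e0]; exact (G.memLp φ).coeFn_toLp
  have e2 : intL G (G.toL2 (φ : G.H1)) = ∫ x, Geo.fn φ x ∂G.vol := by
    rw [intL_apply]; exact integral_congr_ae e1
  have e3 : DE hE hc hp U (φ : G.H1) =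
      ∫ x, h x * Real.exp (G.toL2 U x) * Geo.fn φ x ∂G.vol := by
    rw [DE_apply]
    refine integral_congr_ae ?_
    filter_upwards [e1] with x hx
    rw [hx]
  simp only [ContinuousLinearMap.sub_apply, ContinuousLinearMap.add_apply,
    ContinuousLinearMap.smul_apply, ContinuousLinearMap.comp_apply, innerSL_apply_apply, e2, e3,
    smul_eq_mul, nsmul_eq_mul]
  push_cast
  ring

end Pool.Agent.W174.PSH
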